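import Pool.Agent.K1H97.PU.Z0
import Pool.Agent.K1H17.MT.Spe

/-! Tensor differentials and specialness for varieties which dominate quotients of products by
groups which permute the factors (after `Pool.Agent.K1H17.MT`). -/

set_option autoImplicit false
set_option linter.overlappingInstances false
set_option linter.unusedSectionVars false
set_option linter.style.haveILetI false

open FF IntermediateField Pool.Agent.W619.PQ Pool.Agent.W619.PL Pool.Agent.W619.TW
  Pool.Agent.W619.Y Pool.Agent.K1H17.IS Pool.Agent.W602.GT Pool.Agent.K1H6.PQ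
  Pool.Agent.K1H17.MT

namespace Pool.Agent.K1H97.PU

variable {k : Type} [Field k] [CharZero k] [IsAlgClosed k]

theorem mainP {K : Type} [Field K] [Algebra k K] {n : ℕ} (hn : Algebra.trdeg k K = n)
    (V : IntermediateField k K) (hV : RationallyConnected V K)
    {L : Type} [Field L] [Algebra k L] {r : ℕ} (M : Fin r → IntermediateField k L)
    (a : Fin r → ℕ) (G : Subgroup (L ≃ₐ[k] L)) [Finite G] (σ : G →* Equiv.Perm (Fin r))
    (h : IsPermuted M a G σ)
    (s : Fin r → (L ≃ₐ[k] L) → ℝ)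
    (hs : ∀ i, (∀ g ∈ stab σ i, s i g ≤ 0) ∨ OrbEffective (M i) (stab σ i) (a i) (s i))
    (hg : AgeOne M a G σ s)
    (hκ : ∀ i, ¬ KodairaNeg k (M i) (a i)) (φ : fixedField G →ₐ[k] V)
    (hpos : (∀ i, a i = 0) → V = ⊥) (hT : TensorVanish k K n) :
    V = ⊥ ∧ RationallyConnected k K := by
  obtain ⟨h1, h2⟩ := quot h
  have h3 : ¬ KodairaNeg k (fixedField G) (∑ i, a i) := fun h4 => by
    obtain ⟨i, hi⟩ := (kodairaNegP h s hs hg).1 h4
    exact hκ i hi
  have h4 : ∑ i, a i = 0 := by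
    by_contra hne
    exact not_vanish_of_kod hn (V.val.comp φ) h1 h2 (Nat.one_le_iff_ne_zero.2 hne) h3 hT
  have h5 : V = ⊥ := hpos fun i => (Finset.sum_eq_zero_iff.1 h4) i (Finset.mem_univ i)
  refine ⟨h5, rc_of_surj (F := V) ?_ hV⟩
  rintro ⟨x, hx⟩
  rw [h5, mem_bot] at hx
  obtain ⟨c, hc⟩ := hx
  exact ⟨c, Subtype.ext hc⟩

theorem mainSP {K : Type} [Field K] [Algebra k K] {n : ℕ} (hn : Algebra.trdeg k K = n)
    (V : IntermediateField k K) (hV : Unirational V K)
    {L : Type} [Field L] [Algebra k L] {r : ℕ} (M : Fin r → IntermediateField k L)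
    (a : Fin r → ℕ) (G : Subgroup (L ≃ₐ[k] L)) [Finite G] (σ : G →* Equiv.Perm (Fin r))
    (h : IsPermuted M a G σ)
    (s : Fin r → (L ≃ₐ[k] L) → ℝ)
    (hs : ∀ i, (∀ g ∈ stab σ i, s i g ≤ 0) ∨ OrbEffective (M i) (stab σ i) (a i) (s i))
    (hg : Pool.Agent.K1H6.PQ.AgeCond M a G σ s)
    (hκ : ∀ i, GeneralType k (M i) (a i)) (φ : fixedField G →ₐ[k] V)
    (hpos : (∀ i, a i = 0) → V = ⊥) (hT : Special k K n (fun _ => False)) :
    V = ⊥ ∧ (∃ m, IsUnirational k K m) ∧
      ∀ (N : ℕ) (x : Fin (N + 1) → K), x ≠ 0 → Pool.Agent.TH466.QT.PotentiallyDense k x := by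
  obtain ⟨h1, h2⟩ := quot h
  have h3 := (h.kod s hs hg fun i => kod_of_generalType (hκ i)).1
  have h4 : ∑ i, a i = 0 := by
    by_contra hne
    let ψ : fixedField G →ₐ[k] K := V.val.comp φ
    have e : fixedField G ≃ₐ[k] ψ.fieldRange := AlgEquiv.ofInjectiveField ψ
    have hess' : Algebra.EssFiniteType k ψ.fieldRange :=
      (Algebra.EssFiniteType.iff_of_algEquiv e).1 h2
    exact Pool.Agent.TH466.QT.not_special hn ψ.fieldRange (Nat.one_le_iff_ne_zero.2 hne)
      (generalType_equiv e h2 h1 h3) hT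
  have h5 : V = ⊥ := hpos fun i => (Finset.sum_eq_zero_iff.1 h4) i (Finset.mem_univ i)
  have h6 : ∃ m, IsUnirational k K m := by
    refine unirational_of_surj (V := V) ?_ hV
    rintro ⟨x, hx⟩
    rw [h5, mem_bot] at hx
    obtain ⟨c, hc⟩ := hx
    exact ⟨c, Subtype.ext hc⟩
  obtain ⟨m, hm⟩ := h6
  exact ⟨h5, ⟨m, hm⟩, fun N x hx => Pool.Agent.TH466.QT.dense_of_unirational hm hx⟩

end Pool.Agent.K1H97.PU
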