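import Pool.Agent.K1H6.PQ.Fin
import Pool.Agent.K1H17.IS.Uf

/-! Kodaira dimension `≥ 0` for quotients of products by groups which permute the factors: the
criterion with weights (age at least `1`). -/

set_option autoImplicit false
set_option linter.overlappingInstances false
set_option linter.unusedSectionVars false
set_option linter.unusedVariables false
set_option linter.style.haveILetI false

open FF IntermediateField Pool.Agent.W619.PQ Pool.Agent.W619.PL Pool.Agent.W619.TW
  Pool.Agent.W603.LV Pool.Agent.W619.Y Pool.Agent.W672.PG Pool.Agent.W824.PG Pool.Agent.Y174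
  Pool.Agent.K1H17.IS Pool.Agent.K1H6.PQ

namespace Pool.Agent.K1H97.PU

section

variable {k : Type} {L : Type} [Field k] [CharZero k] [Field L] [Algebra k L]
variable (M : IntermediateField k L) (G : Subgroup (L ≃ₐ[k] L))

/-- The output for one factor, one form. -/
def FacP0 (a : ℕ) (s : (L ≃ₐ[k] L) → ℝ) (y : Fin a → M) (E : Fin a → Derivation k M M)
    (n : ℕ) : Prop :=
  ∀ T : ℕ,
    ∃ F : (Fin a → Derivation k M M) → M,
      IsPluriForm k M a (T * n) F ∧ F E ≠ 0 ∧
      (∀ (u : Place k M), IsDivisorial u a → LogGe a u F ((T * n : ℕ) : ℝ)) ∧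
      ∀ (N : ℕ) (w : Place k L), Algebra.trdeg k L = N → IsDivisorial w N →
        ∀ g ∈ G, IsOfFinOrder g → Inert w g → WLog w M a F
          (T * n * (orderOf g * wgt M g (s g)))

variable [Finite G]

theorem facp_orb0 (hGM : ∀ g ∈ G, ∀ z ∈ M, g z ∈ M) {a : ℕ} (hM : Algebra.trdeg k M = a)
    (hessM : Algebra.EssFiniteType k M)
    {s : (L ≃ₐ[k] L) → ℝ} (hs : OrbEffective M G a s)
    (y0 : Fin a → ↥(M ⊓ fixedField G)) (hy0 : IsTranscendenceBasis k y0)
    (hy : IsTranscendenceBasis k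
      (fun i => inclusion (inf_le_left : M ⊓ fixedField G ≤ M) (y0 i)))
    (E : Fin a → Derivation k M M)
    (hE : ∀ i j, E i (inclusion (inf_le_left : M ⊓ fixedField G ≤ M) (y0 j)) =
        if i = j then 1 else 0) :
    ∃ n : ℕ, 1 ≤ n ∧ FacP0 M G a s
      (fun i => inclusion (inf_le_left : M ⊓ fixedField G ≤ M) (y0 i)) E n := by
  obtain ⟨δ, hδ, hη⟩ := hs
  letI := qalg M G
  haveI := qtower M G
  haveI := qalgebraic M G hGM
  haveI := qfinite M G hGM hessM
  obtain ⟨n, hn1, hF⟩ := forms_0 (qtrdeg M G hGM hM) (qess M G hGM hessM y0 hy0)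
    hη y0 hy0 E hE
  refine ⟨n, hn1, fun T => ?_⟩
  obtain ⟨F, hF1, hF2, hF4⟩ := hF T
  have hlog : ∀ (u : Place k M), IsDivisorial u a →
      LogGe a u F ((T * n : ℕ) : ℝ) := by
    intro u hu
    obtain ⟨e, v, huv⟩ := Pool.Agent.W73.PG.PULL.exists_over' (K := ↥(M ⊓ fixedField G)) u
    refine (hF4 u v e huv hu).mono ?_
    have h1 := (hδ u v e huv).1
    have h2 : (0 : ℝ) ≤ T * n := by positivity
    have h3 := mul_le_mul_of_nonneg_left h1 h2
    push_cast
    linarith
  refine ⟨F, hF1, hF2, hlog, ?_⟩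
  intro N w hn hw g hg hfin hI
  refine ⟨fun u c hu => ?_, fun h0 => ?_⟩
  · obtain ⟨e1, q, hq⟩ := Pool.Agent.W73.PG.PULL.exists_over' (K := ↥(M ⊓ fixedField G)) u
    have hdiv : IsDivisorial u a := Pool.Agent.Y174.pDIVR k M L a N u w c hM hn hu hw
    refine (hF4 u q e1 hq hdiv).mono ?_
    have hc1 : 0 < c := hu.1
    have hc : (0 : ℝ) < c := by exact_mod_cast hc1
    have hle : (orderOf g : ℝ) ≤ c * e1 := by
      obtain ⟨t, ht0, ht⟩ := q.surj
      have h1 := hq.2 t
      have h2 := hu.2 (algebraMap ↥(M ⊓ fixedField G) M t)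
      rw [h1, ht, mul_one] at h2
      have h3 : g (algebraMap M L (algebraMap ↥(M ⊓ fixedField G) M t)) =
          algebraMap M L (algebraMap ↥(M ⊓ fixedField G) M t) := t.2.2 ⟨g, hg⟩
      have h4 := dvd_ord hI hfin (z := algebraMap M L (algebraMap ↥(M ⊓ fixedField G) M t))
        (by simpa using ht0) h3
      rw [h2] at h4
      have h5 : orderOf g ∣ c * e1 := by exact_mod_cast h4
      have h6 := Nat.le_of_dvd (Nat.mul_pos hc1 hq.1) h5
      exact_mod_cast h6
    have hidx := index_ge M hI hfin hu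
    have h3' := (hδ u q e1 hq).1
    have hδ1 : 0 ≤ 1 - δ q := by
      by_contra hcon
      push Not at hcon
      have he1 : (0 : ℝ) ≤ e1 := Nat.cast_nonneg _
      have := mul_nonpos_of_nonneg_of_nonpos he1 hcon.le
      linarith
    have hkey : (orderOf g : ℝ) * wgt M g (s g) ≤ c * (e1 * (1 - δ q)) := by
      have h5 : (c : ℝ) ≤ c * (e1 * (1 - δ q)) := by nlinarith
      have h6 : (0 : ℝ) ≤ orderOf g := Nat.cast_nonneg _
      by_cases ht : Pool.Agent.K1H6.PQ.ordOn M g = 1
      · unfold wgt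
        rw [if_pos ht, mul_zero]
        linarith
      · have hna : ¬ ActsTrivially M g := fun h => ht (ordOn_one_of_triv M h)
        have h2 := (hδ u q e1 hq).2 g hg hna (fixes_of_inert M hI hu)
        unfold wgt at hidx ⊢
        rw [if_neg ht] at hidx ⊢
        rw [max_eq_left (by positivity)] at hidx
        rw [mul_max_of_nonneg _ _ h6]
        apply max_le
        · linarith
        · have h7 : (orderOf g : ℝ) * s g ≤ orderOf g * (1 - δ q) :=
            mul_le_mul_of_nonneg_left (by linarith) h6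
          have h8 : (orderOf g : ℝ) * (1 - δ q) ≤ (c * e1) * (1 - δ q) :=
            mul_le_mul_of_nonneg_right hle hδ1
          linarith
    rw [div_le_iff₀ hc]
    have h8 := mul_le_mul_of_nonneg_left hkey (show (0 : ℝ) ≤ T * n by positivity)
    nlinarith
  · rw [triv_of_place M hI (hGM g hg) h0]
    simp

theorem facp_free0 (hGM : ∀ g ∈ G, ∀ z ∈ M, g z ∈ M) {a : ℕ} (hM : Algebra.trdeg k M = a)
    (hessM : Algebra.EssFiniteType k M)
    {s : (L ≃ₐ[k] L) → ℝ} (hs : ∀ g ∈ G, s g ≤ 0) (hω : KodTr k M a 0)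
    (y : Fin a → M) (hy : IsTranscendenceBasis k y)
    (E : Fin a → Derivation k M M) (hE : ∀ i j, E i (y j) = if i = j then 1 else 0) :
    ∃ n : ℕ, 1 ≤ n ∧ FacP0 M G a s y E n := by
  obtain ⟨m, hm, ω, hω1, hω2, hω3, -⟩ := pairKod_form (pairKod_zero.2 hω) y hy E hE
  have hlog0 : ∀ l (u : Place k M), IsDivisorial u a → LogGe a u (ω l) m := by
    intro l u hu
    have h2 : LogGe a u (ω l) (m + 0) := by
      refine logGe_of_reg hM hessM hu (ω l) (hω1 l) fun D hD => ?_
      have h3 := hω2 l u hu D hD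
      simpa using h3
    simpa using h2
  refine ⟨m, hm, fun T => ?_⟩
  have hF1 : IsPluriForm k M a (T * m) (fun D => ω 0 D ^ T) := pluri_pow (hω1 0) _
  have hlog : ∀ (u : Place k M), IsDivisorial u a →
      LogGe a u (fun D => ω 0 D ^ T) ((T * m : ℕ) : ℝ) := by
    intro u hu
    refine ((hlog0 0 u hu).pow T).mono ?_
    push_cast
    exact le_rfl
  refine ⟨fun D => ω 0 D ^ T, hF1, pow_ne_zero _ (hω3 0), hlog, ?_⟩
  intro N w hn hw g hg hfin hI
  rw [wgt_of_le M g (hs g hg)]
  refine ⟨fun u c hu => ?_, fun h0 => ?_⟩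
  · have hdiv : IsDivisorial u a := Pool.Agent.Y174.pDIVR k M L a N u w c hM hn hu hw
    refine (hlog u hdiv).mono ?_
    have hc1 : 0 < c := hu.1
    have hc : (0 : ℝ) < c := by exact_mod_cast hc1
    have hidx := index_ge M hI hfin hu
    rw [div_le_iff₀ hc]
    have h9 := mul_le_mul_of_nonneg_left hidx (show (0 : ℝ) ≤ T * m by positivity)
    push_cast
    linarith
  · rw [triv_of_place M hI (hGM g hg) h0]
    simp

end

section

variable {k : Type} [Field k] [CharZero k] [IsAlgClosed k]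
variable {L : Type} [Field L] [Algebra k L] {r : ℕ} {M : Fin r → IntermediateField k L}
  {a : Fin r → ℕ} {G : Subgroup (L ≃ₐ[k] L)} {σ : G →* Equiv.Perm (Fin r)}

/-- The numerical criterion (for the Kodaira dimension to be `≥ 0`): all elements `g ≠ 1` of the
group have age at least `1`. -/
def AgeOne {r : ℕ} (M : Fin r → IntermediateField k L) (a : Fin r → ℕ)
    (G : Subgroup (L ≃ₐ[k] L)) (σ : G →* Equiv.Perm (Fin r)) (s : Fin r → (L ≃ₐ[k] L) → ℝ) : Prop :=
  ∀ g : G, g ≠ 1 → (∃ i, σ g i ≠ i ∧ 2 ≤ a i) ∨ 1 ≤ age M a (σ g) s g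

theorem kod_zeroP [Finite G] (h : IsPermuted M a G σ) (s : Fin r → (L ≃ₐ[k] L) → ℝ)
    (hs : ∀ i, (∀ g ∈ stab σ i, s i g ≤ 0) ∨ OrbEffective (M i) (stab σ i) (a i) (s i))
    (hg : AgeOne M a G σ s) (hω : ∀ i, KodTr k (M i) (a i) 0) :
    KodTr k (fixedField G) (∑ i, a i) 0 := by
  classical
  have hess := h.essL
  have halg : Algebra.IsAlgebraic ↥(⨆ i, M i) L := by
    rw [h.sup]
    exact ⟨fun z => isAlgebraic_algebraMap (⟨z, trivial⟩ : (⊤ : IntermediateField k L))⟩
  have hfinst : ∀ i, Finite (stab σ i) := by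
    intro i
    have hle : ∀ g : stab σ i, (g : L ≃ₐ[k] L) ∈ G := by
      rintro ⟨g, hg⟩
      obtain ⟨g', -, rfl⟩ := (mem_stab σ i g).1 hg
      exact g'.2
    exact Finite.of_injective (fun g : stab σ i => (⟨g, hle g⟩ : G)) (fun g g' hgg =>
      Subtype.ext (congrArg (fun z : G => (z : L ≃ₐ[k] L)) hgg))
  have hg' : ∀ g : G, g ≠ 1 → 1 ≤ age M a (σ g) s g := by
    intro g hg1
    rcases hg g hg1 with ⟨i, hi, hi2⟩ | h1
    · rw [age_eq]
      have h1 := permAge_ge a (σ g) (h.dim g) hi hi2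
      have h2 := wsum_nonneg M (σ g) s (g : L ≃ₐ[k] L)
      linarith
    · exact h1
  have hfac : ∀ i, ∃ (y : Fin (a i) → M i) (E : Fin (a i) → Derivation k (M i) (M i)) (n : ℕ),
      IsTranscendenceBasis k y ∧ (∀ p q, E p (y q) = if p = q then 1 else 0) ∧ 1 ≤ n ∧
      FacP0 (M i) (stab σ i) (a i) (s i) y E n := by
    intro i
    obtain ⟨y0, E, hy0, hy, hE⟩ := exists_coords (M i) (stab σ i) (h.stable i) (h.trdeg i)
    rcases hs i with h1 | h1
    · obtain ⟨n, h2, h4⟩ := facp_free0 (M i) (stab σ i) (h.stable i) (h.trdeg i) (h.ess i)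
        h1 (hω i) _ hy E hE
      exact ⟨_, E, n, hy, hE, h2, h4⟩
    · obtain ⟨n, h2, h4⟩ := facp_orb0 (M i) (stab σ i) (h.stable i) (h.trdeg i) (h.ess i)
        h1 y0 hy0 hy E hE
      exact ⟨_, E, n, hy, hE, h2, h4⟩
  choose y E n hy hE hn1 hF using hfac
  let Q : ℕ := ∏ i, n i
  have hQ : 1 ≤ Q := Nat.succ_le_of_lt (Finset.prod_pos fun i _ => hn1 i)
  have hQn : ∀ i, ∃ p, Q = n i * p := fun i => Finset.dvd_prod_of_mem _ (Finset.mem_univ i)
  choose p hp using hQn
  have hwt : ∀ i, p i * n i = Q := by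
    intro i
    rw [mul_comm]
    exact (hp i).symm
  choose F hF1 hF2 hF4 hF5 using fun i => hF i (p i)
  simp only [hwt] at hF1 hF4
  have hsum0 : (∑ i, (fun _ => 0 : Fin r → ℕ) i) = 0 := Finset.sum_const_zero
  have h1 : KodTr k (fixedField G) (∑ i, a i) (∑ i, (fun _ => 0 : Fin r → ℕ) i) := by
    refine kod_prodP (μ := Q) (A := fun _ => 0) hQ M halg h.total h.trdeg hess h.ess G y hy E hE
      (fun i _ => F i) (fun i _ => hF1 i) (fun i _ => hF2 i) (fun i => ?_)
      (fun i _ => hF4 i) ?_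
    · exact algebraicIndependent_empty_type_iff.2 (algebraMap k (M i)).injective
    intro v hv w e hwv he2 hin t D hD hl
    obtain ⟨g, hgG, hg1, hord, hI⟩ := hin
    have hw := divisorial_up hwv hv
    set g' : G := ⟨g, hgG⟩ with hg'd
    have hfin : IsOfFinOrder g := by
      have h3 : IsOfFinOrder g' := isOfFinOrder_of_finite _
      exact (Submonoid.isOfFinOrder_coe (H := G.toSubmonoid) (x := g')).2 h3
    set π : Equiv.Perm (Fin r) := σ g' with hπ
    have hge : g' ^ e = 1 := by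
      apply Subtype.ext
      have : ((g' ^ e : G) : L ≃ₐ[k] L) = g ^ e := rfl
      rw [this, ← hord, pow_orderOf_eq_one]
      rfl
    have hπe : π ^ e = 1 := by rw [hπ, ← map_pow, hge, map_one]
    let l : Fin r → ℕ := fun i => Function.minimalPeriod π i
    have hl0 : ∀ i, 0 < l i := fun i => mp_pos π i
    have hordl : ∀ i, (orderOf (g ^ l i) : ℝ) = e * (1 / (l i : ℝ)) := by
      intro i
      have h2 : orderOf (g ^ l i) = e / l i := by
        rw [← hord]
        exact orderOf_pow_of_dvd (hl0 i).ne' (hord ▸ mp_dvd π i hπe)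
      have h3 : e = e / l i * l i := (Nat.div_mul_cancel (mp_dvd π i hπe)).symm
      have h4 : (l i : ℝ) ≠ 0 := by exact_mod_cast (hl0 i).ne'
      rw [h2, mul_one_div, eq_div_iff h4]
      exact_mod_cast h3.symm
    have hst : ∀ i, g ^ l i ∈ stab σ i := by
      intro i
      refine (mem_stab σ i _).2 ⟨g' ^ l i, ?_, rfl⟩
      rw [map_pow]
      exact pow_mp π i
    have h3 := ram M halg h.total h.trdeg h.ess σ h.perm hw g' hI (μ := Q) y hy E hE
      (fun i => F i) (fun i => hF1 i) _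
      (fun i => hF5 i _ w h.total hw (g ^ l i) (hst i) hfin.pow (inert_pow hI _)) D hD hl
    refine h3.mono ?_
    change (((Q : ℕ) : ℝ) * e) ≤ _ + ((Q : ℕ) : ℝ) * ((orderOf g : ℝ) * permAge a π)
    rw [hord]
    have hsum : ∑ i, ((p i : ℝ) * n i * (orderOf (g ^ l i) *
        wgt (M i) (g ^ l i) (s i (g ^ l i)))) =
        (Q : ℝ) * (e * ∑ i, (1 / (l i : ℝ)) * wgt (M i) (g ^ l i) (s i (g ^ l i))) := by
      rw [Finset.mul_sum, Finset.mul_sum]
      refine Finset.sum_congr rfl fun i _ => ?_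
      have h4 : ((p i : ℝ) * n i) = Q := by
        rw [hp i]; push_cast; ring
      rw [hordl, h4]
      ring
    rw [hsum]
    have hs1 := age_eq M a π s g
    have hkey : 1 ≤ age M a π s g := hg' g' (fun h0 => hg1 (congrArg Subtype.val h0))
    have hQe : (0 : ℝ) ≤ (Q : ℝ) * e := by positivity
    have h8 := mul_le_mul_of_nonneg_left hkey hQe
    rw [hs1] at h8
    change (Q : ℝ) * e * 1 ≤ Q * e * (permAge a π + ∑ i, (1 / (l i : ℝ)) *
      wgt (M i) (g ^ l i) (s i (g ^ l i))) at h8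
    linarith
  rw [hsum0] at h1
  exact h1

theorem quot [Finite G] (h : IsPermuted M a G σ) :
    Algebra.trdeg k (fixedField G) = (∑ i, a i : ℕ) ∧ Algebra.EssFiniteType k (fixedField G) := by
  have hess := h.essL
  have hfinL : FiniteDimensional (fixedField G) L := by
    have hGal : IsGaloisGroup G (fixedField G) L := isGaloisGroup_fixed G
    exact IsGaloisGroup.finiteDimensional G (fixedField G) L
  have halgK := Pool.Agent.W721.PG.EFF2.alg_fixed G
  obtain ⟨hnK, z, hz⟩ := Pool.Agent.W721.PG.EFF2.exists_basis (fixedField G) _ h.total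
  exact ⟨hnK, ess_down hess z hz⟩

theorem uniruledP (h : IsPermuted M a G σ) (i : Fin r)
    (hi : IsUniruled k (M i) (a i)) : IsUniruled k (fixedField G) (∑ i, a i) := by
  cases r with
  | zero => exact i.elim0
  | succ r =>
    obtain ⟨N, b, h1, h2, h3, h4⟩ := split h.ess h.trdeg h.total h.sup i
    have h5 := h.total
    rw [h4] at h5 ⊢
    exact uniruled_down G (uniruled_sup h1 h5 (h.trdeg i) h2 h3 hi)

theorem kod0P [Finite G] (h : IsPermuted M a G σ)
    (hX : KodTr k (fixedField G) (∑ i, a i) 0) (i : Fin r) : KodTr k (M i) (a i) 0 := by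
  have hess := h.essL
  have hfinL : FiniteDimensional (fixedField G) L := by
    have hGal : IsGaloisGroup G (fixedField G) L := isGaloisGroup_fixed G
    exact IsGaloisGroup.finiteDimensional G (fixedField G) L
  have halgK := Pool.Agent.W721.PG.EFF2.alg_fixed G
  obtain ⟨hnK, z, hz⟩ := Pool.Agent.W721.PG.EFF2.exists_basis (fixedField G) _ h.total
  have hessK : Algebra.EssFiniteType k (fixedField G) := ess_down hess z hz
  have hL : KodTr k L (∑ i, a i) 0 := kod0_up hnK h.total hessK hess hX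
  cases r with
  | zero => exact i.elim0
  | succ r =>
    obtain ⟨N, b, h1, h2, h3, h4⟩ := split h.ess h.trdeg h.total h.sup i
    have h5 := h.total
    rw [h4] at h5 hL
    exact kod0_factor h1 h5 (h.trdeg i) h2 hess hL

/-- `κ (X) = -∞` if and only if `κ (W i) = -∞` for some `i`. -/
theorem kodairaNegP [Finite G] (h : IsPermuted M a G σ) (s : Fin r → (L ≃ₐ[k] L) → ℝ)
    (hs : ∀ i, (∀ g ∈ stab σ i, s i g ≤ 0) ∨ OrbEffective (M i) (stab σ i) (a i) (s i))
    (hg : AgeOne M a G σ s) :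
    KodairaNeg k (fixedField G) (∑ i, a i) ↔ ∃ i, KodairaNeg k (M i) (a i) := by
  simp only [← kod0_iff]
  constructor
  · intro h1
    by_contra h2
    push Not at h2
    exact h1 (kod_zeroP h s hs hg h2)
  · rintro ⟨i, hi⟩ h1
    exact hi (kod0P h h1 i)

/-- `κ = -∞` implies uniruled, for the quotient. -/
theorem uniruled_iffP [Finite G] (h : IsPermuted M a G σ) (s : Fin r → (L ≃ₐ[k] L) → ℝ)
    (hs : ∀ i, (∀ g ∈ stab σ i, s i g ≤ 0) ∨ OrbEffective (M i) (stab σ i) (a i) (s i))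
    (hg : AgeOne M a G σ s)
    (hQ : ∀ i, KodairaNeg k (M i) (a i) → IsUniruled k (M i) (a i)) :
    (KodairaNeg k (fixedField G) (∑ i, a i) ↔ IsUniruled k (fixedField G) (∑ i, a i)) ∧
    (IsUniruled k (fixedField G) (∑ i, a i) ↔ ∃ i, IsUniruled k (M i) (a i)) := by
  obtain ⟨hnK, hessK⟩ := quot h
  have h1 := kodairaNegP h s hs hg
  have h2 : (∃ i, IsUniruled k (M i) (a i)) → IsUniruled k (fixedField G) (∑ i, a i) :=
    fun ⟨i, hi⟩ => uniruledP h i hi
  have h3 : IsUniruled k (fixedField G) (∑ i, a i) → KodairaNeg k (fixedField G) (∑ i, a i) :=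
    kodairaNeg_of_uniruled hessK hnK
  have h4 : KodairaNeg k (fixedField G) (∑ i, a i) → ∃ i, IsUniruled k (M i) (a i) := fun h5 => by
    obtain ⟨i, hi⟩ := h1.1 h5
    exact ⟨i, hQ i hi⟩
  exact ⟨⟨fun h5 => h2 (h4 h5), h3⟩, fun h5 => h4 (h3 h5), h2⟩

/-- Nonvanishing for the quotient. -/
theorem nonvanishingP [Finite G] (h : IsPermuted M a G σ)
    (s : Fin r → (L ≃ₐ[k] L) → ℝ)
    (hs : ∀ i, (∀ g ∈ stab σ i, s i g ≤ 0) ∨ OrbEffective (M i) (stab σ i) (a i) (s i))
    (hg : AgeOne M a G σ s)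
    (hQ : ∀ i, IsPsef k (M i) (a i) (fun _ => False) → ¬ KodairaNeg k (M i) (a i)) :
    IsPsef k (fixedField G) (∑ i, a i) (fun _ => False) →
      ¬ KodairaNeg k (fixedField G) (∑ i, a i) := by
  intro h1 h2
  obtain ⟨i, hi⟩ := (kodairaNegP h s hs hg).1 h2
  exact hQ i (h.num.1 h1 i) hi

end

end Pool.Agent.K1H97.PU
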